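import Mathlib

set_option autoImplicit false

/-!
Definitions for the truncated pentagonal series problem.
-/

namespace Pool.Agent.Helper50.TruncPent

open PowerSeries
open scoped PowerSeries.WithPiTopology

/-- `N_k = k (3 k + 1) / 2`. -/
def N (k : ℕ) : ℕ := k * (3 * k + 1) / 2

/-- The truncated pentagonal sum `P_k(q) = ∑_{i = 1 - k}^{k} (-1)^i q^{i (3 i - 1) / 2}`. -/
noncomputable def P (k : ℕ) : ℤ⟦X⟧ :=
  ∑ i ∈ Finset.Icc (1 - (k : ℤ)) (k : ℤ),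
    (-1 : ℤ⟦X⟧) ^ i.natAbs * X ^ (i * (3 * i - 1) / 2).toNat

/-- The infinite product `(q^s; q^t)_∞ = ∏_{i ≥ 0} (1 - q^{s + t i})`. -/
noncomputable def poch (s t : ℕ) : ℤ⟦X⟧ := ∏' i : ℕ, (1 - (X : ℤ⟦X⟧) ^ (s + t * i))

/-- `F_k(q) = (-1)^{k-1} (P_k(q) / (q; q)_∞ - 1) (q, q^6, q^7; q^7)_∞`. -/
noncomputable def F (k : ℕ) : ℤ⟦X⟧ :=
  (-1) ^ (k - 1) * (P k * Ring.inverse (poch 1 1) - 1) * (poch 1 7 * poch 6 7 * poch 7 7)

end Pool.Agent.Helper50.TruncPent
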