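import Mathlib

set_option autoImplicit false

/-!
The quasi-polynomial counting partitions into parts 2, 3, 5.
-/

namespace Pool.Agent.Helper50.TruncPent

open PowerSeries

/-- Periodic correction term. -/
def eta (r : ℕ) : ℤ :=
  match r with
  | 0 => 35 | 1 => -36 | 2 => 11 | 3 => -4 | 4 => -21 | 5 => 20 | 6 => -1 | 7 => -24
  | 8 => 11 | 9 => -16 | 10 => 15 | 11 => -16 | 12 => 11 | 13 => -24 | 14 => -1
  | 15 => 20 | 16 => -21 | 17 => -4 | 18 => 11 | 19 => -36 | 20 => 35 | 21 => -16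
  | 22 => -9 | 23 => -4 | 24 => -1 | 25 => 0 | 26 => -1 | 27 => -4 | 28 => -9
  | _ => -16

/-- The number of partitions of `n` into parts `2, 3, 5`, as a quasi-polynomial. -/
def Q (n : ℕ) : ℤ := (((n : ℤ) + 5) ^ 2 + eta (n % 30)) / 60

lemma eta_dvd (r : ℕ) (hr : r < 30) : (60 : ℤ) ∣ ((r : ℤ) + 5) ^ 2 + eta r := by
  interval_cases r <;> decide

lemma sixty_Q (n : ℕ) : 60 * Q n = ((n : ℤ) + 5) ^ 2 + eta (n % 30) := by
  unfold Q
  apply Int.mul_ediv_cancel'
  have h := eta_dvd (n % 30) (Nat.mod_lt _ (by norm_num))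
  have h2 : (n : ℤ) = 30 * ((n / 30 : ℕ) : ℤ) + ((n % 30 : ℕ) : ℤ) := by
    have := Nat.div_add_mod n 30
    exact_mod_cast this.symm
  have h3 : ((n : ℤ) + 5) ^ 2 + eta (n % 30) =
      60 * (((n / 30 : ℕ) : ℤ) * (15 * ((n / 30 : ℕ) : ℤ) + ((n % 30 : ℕ) : ℤ) + 5)) +
      ((((n % 30 : ℕ) : ℤ) + 5) ^ 2 + eta (n % 30)) := by
    rw [h2]
    have : ((30 * (n / 30) + n % 30 : ℕ)) % 30 = n % 30 := by omega
    ring
  rw [h3]
  exact dvd_add (dvd_mul_right _ _) h

lemma eta_ge (r : ℕ) : -36 ≤ eta r := by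
  unfold eta; split <;> norm_num

lemma eta_le (r : ℕ) : eta r ≤ 35 := by
  unfold eta; split <;> norm_num

lemma eta_rec (r : ℕ) (hr : r < 30) :
    eta r - eta ((r + 28) % 30) - eta ((r + 27) % 30) + eta ((r + 23) % 30) +
      eta ((r + 22) % 30) - eta ((r + 20) % 30) = 0 := by
  interval_cases r <;> decide

/-- Recurrence with characteristic polynomial `(1-q^2)(1-q^3)(1-q^5)`. -/
lemma Q_rec (n : ℕ) :
    Q (n + 10) - Q (n + 8) - Q (n + 7) + Q (n + 3) + Q (n + 2) - Q n = 0 := by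
  have h0 := sixty_Q n
  have h2 := sixty_Q (n + 2)
  have h3 := sixty_Q (n + 3)
  have h7 := sixty_Q (n + 7)
  have h8 := sixty_Q (n + 8)
  have h10 := sixty_Q (n + 10)
  have e := eta_rec ((n + 10) % 30) (Nat.mod_lt _ (by norm_num))
  have e8 : ((n + 10) % 30 + 28) % 30 = (n + 8) % 30 := by omega
  have e7 : ((n + 10) % 30 + 27) % 30 = (n + 7) % 30 := by omega
  have e3 : ((n + 10) % 30 + 23) % 30 = (n + 3) % 30 := by omega
  have e2 : ((n + 10) % 30 + 22) % 30 = (n + 2) % 30 := by omega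
  have e0 : ((n + 10) % 30 + 20) % 30 = n % 30 := by omega
  rw [e8, e7, e3, e2, e0] at e
  push_cast at h0 h2 h3 h7 h8 h10
  nlinarith

/-- Generating function of `Q`. -/
noncomputable def QS : ℤ⟦X⟧ := PowerSeries.mk Q

lemma QS_mul : QS * ((1 - X ^ 2) * (1 - X ^ 3) * (1 - X ^ 5)) = 1 := by
  have h : QS * ((1 - X ^ 2) * (1 - X ^ 3) * (1 - X ^ 5)) =
      QS - QS * X ^ 2 - QS * X ^ 3 + QS * X ^ 7 + QS * X ^ 8 - QS * X ^ 10 := by ring
  rw [h]
  ext n
  simp only [map_add, map_sub, coeff_mul_X_pow', coeff_one]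
  by_cases hn : 10 ≤ n
  · obtain ⟨m, rfl⟩ := Nat.exists_eq_add_of_le hn
    have := Q_rec m
    rw [if_pos (by omega), if_pos (by omega), if_pos (by omega), if_pos (by omega),
      if_pos (by omega), if_neg (by omega)]
    simp only [QS, coeff_mk]
    have a1 : 10 + m - 2 = m + 8 := by omega
    have a2 : 10 + m - 3 = m + 7 := by omega
    have a3 : 10 + m - 7 = m + 3 := by omega
    have a4 : 10 + m - 8 = m + 2 := by omega
    have a5 : 10 + m - 10 = m := by omega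
    rw [a1, a2, a3, a4, a5, Nat.add_comm 10 m]
    linarith
  · simp only [QS, coeff_mk]
    interval_cases n <;> decide

end Pool.Agent.Helper50.TruncPent
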