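import Mathlib
import Pool.Agent.Helper50.TruncPent.Defs
import Pool.Agent.Helper50.TruncPent.Quasi

set_option autoImplicit false

namespace Pool.Agent.Helper50.TruncPent

open PowerSeries
open scoped PowerSeries.WithPiTopology

lemma two_mul_N (k : ℕ) : 2 * N k = k * (3 * k + 1) := by
  unfold N
  apply Nat.mul_div_cancel'
  rcases Nat.even_or_odd k with h | h
  · exact (h.two_dvd).mul_right _
  · obtain ⟨m, rfl⟩ := h
    exact Dvd.dvd.mul_left ⟨3 * m + 2, by ring⟩ _

lemma N_succ (k : ℕ) : N (k + 1) = N k + (3 * k + 2) := by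
  have h1 := two_mul_N k
  have h2 := two_mul_N (k + 1)
  nlinarith

lemma N_mono {a b : ℕ} (h : a ≤ b) : N a ≤ N b := by
  induction h with
  | refl => exact le_rfl
  | step _ ih => exact ih.trans (by rw [N_succ]; omega)

/-- The Euler product. -/
noncomputable def E : ℤ⟦X⟧ := pentagonalSeries ℤ

lemma poch_one_one : poch 1 1 = E := by
  unfold poch E
  rw [← PowerSeries.WithPiTopology.tprod_one_sub_X_pow ℤ]
  congr 1
  funext n
  rw [one_mul, add_comm]

lemma P_eq (k : ℕ) : P k = ∑ i ∈ Finset.Icc (1 - (k : ℤ)) (k : ℤ),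
    (-1 : ℤ⟦X⟧) ^ i.natAbs * X ^ pentagonal i := rfl

lemma coeff_P (k n : ℕ) : coeff n (P k) = ∑ i ∈ Finset.Icc (1 - (k : ℤ)) (k : ℤ),
    if n = pentagonal i then (-1 : ℤ) ^ i.natAbs else 0 := by
  rw [P_eq, map_sum]
  refine Finset.sum_congr rfl fun i _ => ?_
  have : ((-1 : ℤ⟦X⟧)) ^ i.natAbs = C ((-1 : ℤ) ^ i.natAbs) := by simp
  rw [this, coeff_C_mul, coeff_X_pow]
  split <;> simp

lemma negOnePow_eq (i : ℤ) : ((Int.negOnePow i : ℤˣ) : ℤ) = (-1 : ℤ) ^ i.natAbs := by
  rcases Int.even_or_odd i with h | h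
  · rw [Int.negOnePow_even _ h, Even.neg_one_pow (by simpa using h)]
    rfl
  · rw [Int.negOnePow_odd _ h, Odd.neg_one_pow (by simpa using h)]
    rfl

lemma pent_lt {k : ℕ} {i : ℤ} (h : pentagonal i < N k) : 1 - (k : ℤ) ≤ i ∧ i ≤ k := by
  have h1 := two_mul_natCast_pentagonal i
  have h2 := two_mul_N k
  have h3 : i * (3 * i - 1) < k * (3 * k + 1) := by
    have : (2 * (pentagonal i : ℤ)) < 2 * (N k : ℤ) := by exact_mod_cast (by omega)
    rw [h1] at this
    have h4 : (2 * (N k : ℤ)) = k * (3 * k + 1) := by exact_mod_cast h2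
    linarith
  have hk : (0 : ℤ) ≤ k := by positivity
  constructor
  · by_contra hc
    push Not at hc
    nlinarith
  · by_contra hc
    push Not at hc
    nlinarith

lemma coeff_E_sub_P {k n : ℕ} (h : n < N k) : coeff n (E - P k) = 0 := by
  rw [map_sub, coeff_P, E]
  by_cases hn : n ∈ Set.range pentagonal
  · obtain ⟨i, rfl⟩ := hn
    have hi := pent_lt h
    rw [coeff_pentagonalSeries_pentagonal, Finset.sum_eq_single i]
    · rw [if_pos rfl, ← negOnePow_eq, Int.cast_id, sub_self]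
    · intro j _ hj
      rw [if_neg]
      intro hc
      exact hj (pentagonal_injective hc).symm
    · intro hc
      exact absurd (Finset.mem_Icc.mpr hi) hc
  · rw [coeff_pentagonalSeries_eq_zero _ hn, Finset.sum_eq_zero]
    · simp
    · intro j _
      rw [if_neg]
      intro hc
      exact hn ⟨j, hc.symm⟩

/-- The tail `T_k = (-1)^k ((q;q)_∞ - P_k)`. -/
noncomputable def T (k : ℕ) : ℤ⟦X⟧ := (-1) ^ k * (E - P k)

lemma T_dvd (k : ℕ) : X ^ N k ∣ T k := by
  refine Dvd.dvd.mul_left ?_ _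
  rw [X_pow_dvd_iff]
  intro m hm
  exact coeff_E_sub_P hm

lemma P_succ (k : ℕ) : P (k + 1) = P k + ((-1) ^ k * X ^ N k - (-1) ^ k * X ^ (N k + 2 * k + 1)) := by
  have hI : Finset.Icc (1 - ((k + 1 : ℕ) : ℤ)) ((k + 1 : ℕ) : ℤ) =
      insert ((k : ℤ) + 1) (insert (-(k : ℤ)) (Finset.Icc (1 - (k : ℤ)) (k : ℤ))) := by
    ext i
    simp only [Finset.mem_Icc, Finset.mem_insert]
    push_cast
    omega
  rw [P_eq, hI, Finset.sum_insert, Finset.sum_insert, ← P_eq]
  · have e1 : pentagonal (-(k : ℤ)) = N k := by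
      have h1 := two_mul_natCast_pentagonal_neg (k : ℤ)
      have h2 := two_mul_N k
      have : (2 * (pentagonal (-(k : ℤ)) : ℤ)) = 2 * (N k : ℤ) := by
        rw [h1]; exact_mod_cast h2.symm
      omega
    have e2 : pentagonal ((k : ℤ) + 1) = N k + 2 * k + 1 := by
      have h1 := two_mul_natCast_pentagonal ((k : ℤ) + 1)
      have h2 := two_mul_N k
      have h4 : (2 * (N k : ℤ)) = k * (3 * k + 1) := by exact_mod_cast h2
      have : (2 * (pentagonal ((k : ℤ) + 1) : ℤ)) = 2 * (((N k + 2 * k + 1 : ℕ)) : ℤ) := by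
        rw [h1]; push_cast; linarith
      omega
    have e3 : ((k : ℤ) + 1).natAbs = k + 1 := by omega
    have e4 : (-(k : ℤ)).natAbs = k := by omega
    rw [e1, e2, e3, e4]
    ring
  · simp only [Finset.mem_Icc]
    omega
  · simp only [Finset.mem_insert, Finset.mem_Icc]
    omega

lemma T_rec (k : ℕ) : T k = X ^ N k - X ^ (N k + 2 * k + 1) - T (k + 1) := by
  unfold T
  rw [P_succ]
  have h : ((-1 : ℤ⟦X⟧) ^ k) * (-1) ^ k = 1 := by
    rw [← mul_pow]; simp
  linear_combination (X ^ N k - X ^ (N k + 2 * k + 1)) * h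

/-- Coefficients of `T_k / ((1-q^2)(1-q^3)(1-q^5))`. -/
noncomputable def c (k n : ℕ) : ℤ := coeff n (T k * QS)

lemma c_zero {k n : ℕ} (h : n < N k) : c k n = 0 := by
  have := (T_dvd k).mul_right QS
  rw [X_pow_dvd_iff] at this
  exact this n h

lemma c_rec (k n : ℕ) : c k n =
    (if N k ≤ n then Q (n - N k) else 0) -
    (if N k + 2 * k + 1 ≤ n then Q (n - (N k + 2 * k + 1)) else 0) - c (k + 1) n := by
  unfold c
  rw [T_rec k, sub_mul, sub_mul, map_sub, map_sub, coeff_X_pow_mul', coeff_X_pow_mul']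
  simp only [QS, coeff_mk]

end Pool.Agent.Helper50.TruncPent
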