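import Mathlib
import Pool.Agent.Helper50.TruncPent.Series

set_option autoImplicit false

namespace Pool.Agent.Helper50.TruncPent

open PowerSeries

/-- The telescoping polynomial. -/
def g (n j : ℤ) : ℤ := j * (2 * n + 12 - 3 * j ^ 2)

lemma two_mul_N_int (k : ℕ) : (2 : ℤ) * N k = k * (3 * k + 1) := by
  exact_mod_cast two_mul_N k

/-- Value of a full block up to a bounded error. -/
lemma block (n j : ℕ) (h : N (j + 1) ≤ n) :
    |60 * (c j n + c (j + 1) n) - (g n j + g n (j + 1))| ≤ 71 := by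
  have hN := N_succ j
  have h2 := two_mul_N_int j
  rw [c_rec j n, if_pos (by omega), if_pos (by omega)]
  obtain ⟨a, ha⟩ := Nat.exists_eq_add_of_le (show N j + 2 * j + 1 ≤ n by omega)
  have e1 : n - N j = a + (2 * j + 1) := by omega
  have e2 : n - (N j + 2 * j + 1) = a := by omega
  rw [e1, e2]
  have q1 := sixty_Q (a + (2 * j + 1))
  have q2 := sixty_Q a
  have hn : (n : ℤ) = N j + 2 * j + 1 + a := by exact_mod_cast ha
  have l1 := eta_le ((a + (2 * j + 1)) % 30)
  have l2 := eta_le (a % 30)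
  have g1 := eta_ge ((a + (2 * j + 1)) % 30)
  have g2 := eta_ge (a % 30)
  have key : 60 * (Q (a + (2 * j + 1)) - Q a - c (j + 1) n + c (j + 1) n) -
      (g n j + g n (j + 1)) = eta ((a + (2 * j + 1)) % 30) - eta (a % 30) := by
    have : 60 * (Q (a + (2 * j + 1)) - Q a - c (j + 1) n + c (j + 1) n) =
      60 * Q (a + (2 * j + 1)) - 60 * Q a := by ring
    rw [this, q1, q2, hn]
    unfold g
    push_cast
    have h2' : (N j : ℤ) * 2 = j * (3 * j + 1) := by linarith
    linear_combination (-(2 * (j : ℤ) + 1)) * h2'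
  rw [key, abs_le]
  constructor <;> linarith

lemma tele (n : ℕ) : ∀ d j : ℕ, N (j + d) ≤ n →
    |60 * c j n - (g n j - (-1) ^ d * g n ((j + d : ℕ) : ℤ) +
      (-1) ^ d * (60 * c (j + d) n))| ≤ 71 * d := by
  intro d
  induction d with
  | zero => intro j _; simp
  | succ d ih =>
    intro j hj
    have e : j + (d + 1) = j + 1 + d := by ring
    rw [e] at hj ⊢
    have h1 := ih (j + 1) hj
    have h2 := block n j (le_trans (N_mono (by omega)) hj)
    rw [abs_le] at h1 h2 ⊢
    rw [pow_succ]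
    push_cast at h1 h2 ⊢
    constructor <;> linarith [h1.1, h1.2, h2.1, h2.2]

lemma c_last (m y : ℕ) (hy : y ≤ 3 * m + 1) :
    c m (N m + y) = Q y - if 2 * m + 1 ≤ y then Q (y - (2 * m + 1)) else 0 := by
  have hN := N_succ m
  rw [c_rec, c_zero (k := m + 1) (by omega), if_pos (by omega)]
  by_cases h : 2 * m + 1 ≤ y
  · rw [if_pos h, if_pos (by omega)]
    have e1 : N m + y - N m = y := by omega
    have e2 : N m + y - (N m + 2 * m + 1) = y - (2 * m + 1) := by omega
    rw [e1, e2]; ring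
  · rw [if_neg h, if_neg (by omega)]
    have e1 : N m + y - N m = y := by omega
    rw [e1]; ring

lemma g_last (m y : ℕ) : g ((N m + y : ℕ) : ℤ) m = m * (m + 2 * y + 12) := by
  have := two_mul_N_int m
  unfold g
  push_cast
  linear_combination (m : ℤ) * this

lemma g_first (k m y : ℕ) : g ((N m + y : ℕ) : ℤ) k =
    k * (3 * m ^ 2 + m + 2 * y + 12 - 3 * k ^ 2) := by
  have := two_mul_N_int m
  unfold g
  push_cast
  linear_combination (k : ℤ) * this

/-- Bounds for the last block, first part. -/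
lemma last_small (m y : ℕ) (hy : y ≤ 2 * m) :
    ((y : ℤ) + 5) ^ 2 - 36 ≤ 60 * c m (N m + y) ∧
      60 * c m (N m + y) ≤ ((y : ℤ) + 5) ^ 2 + 35 := by
  rw [c_last m y (by omega), if_neg (by omega)]
  have q := sixty_Q y
  have l := eta_le (y % 30)
  have g := eta_ge (y % 30)
  constructor <;> linarith

/-- Bounds for the last block, second part. -/
lemma last_large (m y : ℕ) (h1 : 2 * m + 1 ≤ y) (hy : y ≤ 3 * m + 1) :
    (2 * (m : ℤ) + 1) * (2 * y + 9 - 2 * m) - 71 ≤ 60 * c m (N m + y) ∧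
      60 * c m (N m + y) ≤ (2 * (m : ℤ) + 1) * (2 * y + 9 - 2 * m) + 71 := by
  rw [c_last m y hy, if_pos h1]
  obtain ⟨a, rfl⟩ := Nat.exists_eq_add_of_le h1
  have e : 2 * m + 1 + a - (2 * m + 1) = a := by omega
  rw [e]
  have q1 := sixty_Q (2 * m + 1 + a)
  have q2 := sixty_Q a
  have l1 := eta_le ((2 * m + 1 + a) % 30)
  have g1 := eta_ge ((2 * m + 1 + a) % 30)
  have l2 := eta_le (a % 30)
  have g2 := eta_ge (a % 30)
  push_cast at q1 q2 ⊢
  constructor <;> nlinarith

/-- Positivity in block `m = k + d` for even `d`. -/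
lemma pos_even (k d y : ℕ) (hd : Even d) (hy : y ≤ 3 * (k + d) + 1)
    (p1 : (36 : ℤ) < d * (6 * k ^ 2 + 3 * k * d - k - 2 * d - 73))
    (p2 : (0 : ℤ) < 6 * k ^ 2 * d + 3 * k * d ^ 2 + 4 * k ^ 2 + 3 * k * d + 24 * k -
      d ^ 2 - 61 * d - 60) :
    0 < c k (N (k + d) + y) := by
  have h := tele (N (k + d) + y) d k (by omega)
  rw [hd.neg_one_pow, abs_le] at h
  have h1 := h.1
  rw [g_first k (k + d) y, g_last (k + d) y] at h1
  have hy0 : (0 : ℤ) ≤ y := by positivity
  by_cases hc : y ≤ 2 * (k + d)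
  · have hl := (last_small (k + d) y hc).1
    push_cast at h1 hl
    have := sq_nonneg ((y : ℤ) - d + 5)
    nlinarith
  · have hl := (last_large (k + d) y (by omega) hy).1
    have hc' : (2 * ((k : ℤ) + d) + 1) ≤ y := by exact_mod_cast (by omega)
    push_cast at h1 hl
    have hk0 : (0 : ℤ) ≤ k := by positivity
    have hd0 : (0 : ℤ) ≤ d := by positivity
    have := mul_nonneg (show (0 : ℤ) ≤ 4 * k + 2 * d + 2 by positivity) (sub_nonneg.mpr hc')
    nlinarith

/-- Positivity in block `m = k + d` for odd `d`. -/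
lemma pos_odd (k d y : ℕ) (hd : Odd d) (hy : y ≤ 3 * (k + d) + 1)
    (p3 : (0 : ℤ) < 6 * k ^ 2 * d + 3 * k * d ^ 2 + 2 * k ^ 2 + 3 * k * d + d ^ 2 + 4 * k -
      79 * d - 60)
    (p4 : (0 : ℤ) < 6 * k ^ 2 * d + 3 * k * d ^ 2 + 6 * k ^ 2 + 5 * k * d + 2 * k -
      d ^ 2 - 83 * d - 82) :
    0 < c k (N (k + d) + y) := by
  have h := tele (N (k + d) + y) d k (by omega)
  rw [hd.neg_one_pow, abs_le] at h
  have h1 := h.1
  rw [g_first k (k + d) y, g_last (k + d) y] at h1
  have hy0 : (0 : ℤ) ≤ y := by positivity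
  have hk0 : (0 : ℤ) ≤ k := by positivity
  have hd0 : (0 : ℤ) ≤ d := by positivity
  by_cases hc : y ≤ 2 * (k + d)
  · have hl := (last_small (k + d) y hc).2
    have hc' : (y : ℤ) ≤ 2 * (k + d) := by exact_mod_cast hc
    push_cast at h1 hl
    have a1 := mul_nonneg hy0 (sub_nonneg.mpr hc')
    have a2 := mul_nonneg hk0 hy0
    nlinarith
  · have hl := (last_large (k + d) y (by omega) hy).2
    have hy' : (y : ℤ) ≤ 3 * (k + d) + 1 := by exact_mod_cast hy
    push_cast at h1 hl
    have := mul_nonneg (show (0 : ℤ) ≤ 2 * d + 2 by positivity) (sub_nonneg.mpr hy')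
    nlinarith

end Pool.Agent.Helper50.TruncPent
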