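import Mathlib
import Pool.Agent.Helper50.TruncPent.Bound
set_option autoImplicit false
namespace Pool.Agent.Helper50.TruncPent
open PowerSeries

/-- Fast evaluation of `Q`. -/
def Qc (n : ℕ) : ℕ := ((n + 5) * (n + 5) + (37 - 15 * (n % 2))) / 60

lemma eta_range (r : ℕ) (hr : r < 30) :
    0 ≤ ((37 - 15 * (r % 2) : ℕ) : ℤ) - eta r ∧ ((37 - 15 * (r % 2) : ℕ) : ℤ) - eta r < 60 := by
  interval_cases r <;> decide

lemma Qc_eq (n : ℕ) : (Qc n : ℤ) = Q n := by
  have h := sixty_Q n
  have r := eta_range (n % 30) (Nat.mod_lt _ (by norm_num))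
  have e : n % 30 % 2 = n % 2 := by omega
  rw [e] at r
  unfold Qc
  generalize (37 - 15 * (n % 2) : ℕ) = w at r ⊢
  push_cast
  rw [Int.ediv_eq_iff_of_pos (by norm_num)]
  constructor <;> nlinarith [r.1, r.2]

/-- Sign test for the coefficient `c j (N j + x)`, compared with two accumulators. -/
def chk : ℕ → ℕ → ℕ → ℕ → ℕ → Bool → Bool
  | 0, _, _, _, _, _ => false
  | f + 1, j, x, p, q, dir =>
    cond (Nat.ble (3 * j + 2) x)
      (chk f (j + 1) (x - (3 * j + 2)) (q + Qc (x - (2 * j + 1))) (p + Qc x) (!dir))
      (cond (Nat.ble (2 * j + 1) x)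
         (cond dir (Nat.blt (q + Qc (x - (2 * j + 1))) (p + Qc x))
            (Nat.blt (p + Qc x) (q + Qc (x - (2 * j + 1)))))
         (cond dir (Nat.blt q (p + Qc x)) (Nat.blt (p + Qc x) q)))

lemma c_rec' (j x : ℕ) : c j (N j + x) = Q x -
    (if 2 * j + 1 ≤ x then Q (x - (2 * j + 1)) else 0) -
    (if 3 * j + 2 ≤ x then c (j + 1) (N (j + 1) + (x - (3 * j + 2))) else 0) := by
  have hN := N_succ j
  rw [c_rec, if_pos (by omega)]
  have e1 : N j + x - N j = x := by omega
  rw [e1]
  congr 1
  · congr 1
    by_cases h : 2 * j + 1 ≤ x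
    · rw [if_pos h, if_pos (by omega)]
      congr 1; omega
    · rw [if_neg h, if_neg (by omega)]
  · by_cases h : 3 * j + 2 ≤ x
    · rw [if_pos h]
      congr 1; omega
    · rw [if_neg h, c_zero (by omega)]

lemma chk_spec : ∀ (f j x p q : ℕ) (dir : Bool), chk f j x p q dir = true →
    (dir = true → (q : ℤ) < p + c j (N j + x)) ∧
      (dir = false → (p : ℤ) + c j (N j + x) < q) := by
  intro f
  induction f with
  | zero => intro j x p q dir h; simp [chk] at h
  | succ f ih =>
    intro j x p q dir h
    rw [chk] at h
    rw [c_rec']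
    by_cases h3 : 3 * j + 2 ≤ x
    · have hb : Nat.ble (3 * j + 2) x = true := Nat.ble_eq.mpr h3
      rw [hb, cond_true] at h
      have := ih _ _ _ _ _ h
      rw [if_pos h3, if_pos (by omega)]
      push_cast [Qc_eq] at this
      constructor
      · intro hd
        have := this.2 (by simp [hd])
        linarith
      · intro hd
        have := this.1 (by simp [hd])
        linarith
    · have hb : Nat.ble (3 * j + 2) x = false := by
        rw [← Bool.not_eq_true, Nat.ble_eq]; exact h3
      rw [hb, cond_false] at h
      rw [if_neg h3]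
      by_cases h2 : 2 * j + 1 ≤ x
      · have hb2 : Nat.ble (2 * j + 1) x = true := Nat.ble_eq.mpr h2
        rw [hb2, cond_true] at h
        rw [if_pos h2]
        cases dir
        · rw [cond_false, Nat.blt_eq] at h
          have h' : ((p + Qc x : ℕ) : ℤ) < ((q + Qc (x - (2 * j + 1)) : ℕ) : ℤ) := by
            exact_mod_cast h
          push_cast [Qc_eq] at h'
          simp only [forall_const, Bool.false_eq_true, IsEmpty.forall_iff, true_and]
          linarith
        · rw [cond_true, Nat.blt_eq] at h
          have h' : ((q + Qc (x - (2 * j + 1)) : ℕ) : ℤ) < ((p + Qc x : ℕ) : ℤ) := by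
            exact_mod_cast h
          push_cast [Qc_eq] at h'
          simp only [forall_const, Bool.true_eq_false, IsEmpty.forall_iff, and_true]
          linarith
      · have hb2 : Nat.ble (2 * j + 1) x = false := by
          rw [← Bool.not_eq_true, Nat.ble_eq]; exact h2
        rw [hb2, cond_false] at h
        rw [if_neg h2]
        cases dir
        · rw [cond_false, Nat.blt_eq] at h
          have h' : ((p + Qc x : ℕ) : ℤ) < (q : ℤ) := by exact_mod_cast h
          push_cast [Qc_eq] at h'
          simp only [forall_const, Bool.false_eq_true, IsEmpty.forall_iff, true_and]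
          linarith
        · rw [cond_true, Nat.blt_eq] at h
          have h' : (q : ℤ) < ((p + Qc x : ℕ) : ℤ) := by exact_mod_cast h
          push_cast [Qc_eq] at h'
          simp only [forall_const, Bool.true_eq_false, IsEmpty.forall_iff, and_true]
          linarith

/-- Test all `x` in a range. -/
def allok (k : ℕ) : ℕ → ℕ → Bool
  | 0, _ => true
  | f + 1, x => cond (chk 80 k x 0 0 true) (allok k f (x + 1)) false

lemma allok_spec (k : ℕ) : ∀ (f x : ℕ), allok k f x = true →
    ∀ y, x ≤ y → y < x + f → 0 < c k (N k + y) := by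
  intro f
  induction f with
  | zero => intro x _ y h1 h2; omega
  | succ f ih =>
    intro x h y h1 h2
    rw [allok] at h
    cases hc : chk 80 k x 0 0 true with
    | false => rw [hc] at h; simp at h
    | true =>
      rw [hc, cond_true] at h
      rcases Nat.eq_or_lt_of_le h1 with rfl | h1
      · have := (chk_spec _ _ _ _ _ _ hc).1 rfl
        simpa using this
      · exact ih (x + 1) h y h1 (by omega)

end Pool.Agent.Helper50.TruncPent
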