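import Mathlib
import Pool.Agent.Helper50.TruncPent.Check

set_option autoImplicit false

namespace Pool.Agent.Helper50.TruncPent

open PowerSeries

lemma block_exists (k : ℕ) : ∀ x : ℕ, ∃ d y : ℕ, y ≤ 3 * (k + d) + 1 ∧
    N k + x = N (k + d) + y := by
  intro x
  induction x with
  | zero => exact ⟨0, 0, by omega, rfl⟩
  | succ x ih =>
    obtain ⟨d, y, hy, h⟩ := ih
    by_cases hc : y ≤ 3 * (k + d)
    · exact ⟨d, y + 1, by omega, by omega⟩
    · refine ⟨d + 1, 0, by omega, ?_⟩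
      have := N_succ (k + d)
      have e : k + (d + 1) = k + d + 1 := by ring
      rw [e]
      omega

lemma Q_pos (y : ℕ) (h : y ≠ 1) : 0 < Q y := by
  have q := sixty_Q y
  rcases Nat.lt_or_ge y 2 with h2 | h2
  · have : y = 0 := by omega
    subst this
    decide
  · have g := eta_ge (y % 30)
    have : (2 : ℤ) ≤ y := by exact_mod_cast h2
    nlinarith

lemma Q_one : Q 1 = 0 := by decide

/-- Positivity in the first block. -/
lemma pos_first (k y : ℕ) (hk : 2 ≤ k) (hy : y ≤ 3 * k + 1) (h1 : y ≠ 1) :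
    0 < c k (N k + y) := by
  by_cases hc : y ≤ 2 * k
  · rw [c_last k y hy, if_neg (by omega), sub_zero]
    exact Q_pos y h1
  · have := (last_large k y (by omega) hy).1
    have hk' : (2 : ℤ) ≤ k := by exact_mod_cast hk
    have hc' : 2 * (k : ℤ) + 1 ≤ y := by exact_mod_cast (by omega)
    have := mul_nonneg (show (0 : ℤ) ≤ 2 * k + 1 by positivity) (sub_nonneg.mpr hc')
    nlinarith

lemma c_one_zero (k : ℕ) (hk : 1 ≤ k) : c k (N k + 1) = 0 := by
  rw [c_last k 1 (by omega), if_neg (by omega), Q_one]; rfl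

/-- Positivity beyond a threshold: `k ≥ 4`. -/
lemma pos_four (k d y : ℕ) (hk : 4 ≤ k) (hd : 1 ≤ d) (hy : y ≤ 3 * (k + d) + 1) :
    0 < c k (N (k + d) + y) := by
  obtain ⟨a, rfl⟩ := Nat.exists_eq_add_of_le hk
  rcases Nat.even_or_odd d with he | ho
  · have hd2 : 2 ≤ d := by
      obtain ⟨r, hr⟩ := he
      omega
    obtain ⟨b, rfl⟩ := Nat.exists_eq_add_of_le hd2
    apply pos_even _ _ _ he hy
    · push_cast
      have : (0 : ℤ) ≤ a := by positivity
      have : (0 : ℤ) ≤ b := by positivity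
      nlinarith [mul_nonneg ‹(0 : ℤ) ≤ a› ‹(0 : ℤ) ≤ b›, sq_nonneg (a : ℤ), sq_nonneg (b : ℤ),
        mul_nonneg (sq_nonneg (a : ℤ)) ‹(0 : ℤ) ≤ b›, mul_nonneg (sq_nonneg (b : ℤ)) ‹(0 : ℤ) ≤ a›]
    · push_cast
      have : (0 : ℤ) ≤ a := by positivity
      have : (0 : ℤ) ≤ b := by positivity
      nlinarith [mul_nonneg ‹(0 : ℤ) ≤ a› ‹(0 : ℤ) ≤ b›, sq_nonneg (a : ℤ), sq_nonneg (b : ℤ),
        mul_nonneg (sq_nonneg (a : ℤ)) ‹(0 : ℤ) ≤ b›, mul_nonneg (sq_nonneg (b : ℤ)) ‹(0 : ℤ) ≤ a›]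
  · obtain ⟨b, rfl⟩ := Nat.exists_eq_add_of_le hd
    apply pos_odd _ _ _ ho hy
    · push_cast
      have : (0 : ℤ) ≤ a := by positivity
      have : (0 : ℤ) ≤ b := by positivity
      nlinarith [mul_nonneg ‹(0 : ℤ) ≤ a› ‹(0 : ℤ) ≤ b›, sq_nonneg (a : ℤ), sq_nonneg (b : ℤ),
        mul_nonneg (sq_nonneg (a : ℤ)) ‹(0 : ℤ) ≤ b›, mul_nonneg (sq_nonneg (b : ℤ)) ‹(0 : ℤ) ≤ a›]
    · push_cast
      have : (0 : ℤ) ≤ a := by positivity
      have : (0 : ℤ) ≤ b := by positivity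
      nlinarith [mul_nonneg ‹(0 : ℤ) ≤ a› ‹(0 : ℤ) ≤ b›, sq_nonneg (a : ℤ), sq_nonneg (b : ℤ),
        mul_nonneg (sq_nonneg (a : ℤ)) ‹(0 : ℤ) ≤ b›, mul_nonneg (sq_nonneg (b : ℤ)) ‹(0 : ℤ) ≤ a›]

/-- Positivity beyond a threshold: `k = 3`. -/
lemma pos_three (d y : ℕ) (hd : 5 ≤ d) (hy : y ≤ 3 * (3 + d) + 1) :
    0 < c 3 (N (3 + d) + y) := by
  obtain ⟨b, rfl⟩ := Nat.exists_eq_add_of_le hd
  have : (0 : ℤ) ≤ b := by positivity
  rcases Nat.even_or_odd (5 + b) with he | ho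
  · apply pos_even _ _ _ he hy <;> push_cast <;> nlinarith
  · apply pos_odd _ _ _ ho hy <;> push_cast <;> nlinarith

/-- Positivity beyond a threshold: `k = 2`. -/
lemma pos_two (d y : ℕ) (hd : 14 ≤ d) (hy : y ≤ 3 * (2 + d) + 1) :
    0 < c 2 (N (2 + d) + y) := by
  obtain ⟨b, rfl⟩ := Nat.exists_eq_add_of_le hd
  have : (0 : ℤ) ≤ b := by positivity
  rcases Nat.even_or_odd (14 + b) with he | ho
  · apply pos_even _ _ _ he hy <;> push_cast <;> nlinarith
  · apply pos_odd _ _ _ ho hy <;> push_cast <;> nlinarith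

/-- Positivity beyond a threshold: `k = 1`. -/
lemma pos_one (d y : ℕ) (hd : 69 ≤ d) (hy : y ≤ 3 * (1 + d) + 1) :
    0 < c 1 (N (1 + d) + y) := by
  obtain ⟨b, rfl⟩ := Nat.exists_eq_add_of_le hd
  have : (0 : ℤ) ≤ b := by positivity
  rcases Nat.even_or_odd (69 + b) with he | ho
  · apply pos_even _ _ _ he hy <;> push_cast <;> nlinarith
  · apply pos_odd _ _ _ ho hy <;> push_cast <;> nlinarith

set_option maxRecDepth 100000

lemma chk_three : allok 3 83 2 = true := by decide +kernel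

lemma chk_two : allok 2 368 17 = true := by decide +kernel

/-- `k ≥ 3`. -/
lemma base_three (k x : ℕ) (hk : 3 ≤ k) (hx : x ≠ 1) : 0 < c k (N k + x) := by
  obtain ⟨d, y, hy, h⟩ := block_exists k x
  rcases Nat.eq_zero_or_pos d with rfl | hd
  · have : x = y := by
      rw [Nat.add_zero] at h; omega
    subst this
    exact pos_first k x (by omega) hy hx
  · rw [h]
    rcases Nat.lt_or_ge k 4 with h4 | h4
    · have hk3 : k = 3 := by omega
      subst hk3
      rcases Nat.lt_or_ge d 5 with h5 | h5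
      · rw [← h]
        have hN3 : N 3 = 15 := by decide
        have hN8 : N 8 = 100 := by decide
        have hlt : N (3 + d) + y < N (3 + d + 1) := by
          rw [N_succ]; omega
        have hle : N (3 + d + 1) ≤ N 8 := N_mono (by omega)
        have hge : N (3 + 1) ≤ N (3 + d) := N_mono (by omega)
        have hN4 : N (3 + 1) = 26 := by decide
        exact allok_spec 3 83 2 chk_three x (by omega) (by omega)
      · exact pos_three d y h5 hy
    · exact pos_four k d y h4 hd hy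

/-- `k = 2`, beyond the small range. -/
lemma base_two (x : ℕ) (hx : 17 ≤ x) : 0 < c 2 (N 2 + x) := by
  obtain ⟨d, y, hy, h⟩ := block_exists 2 x
  rcases Nat.lt_or_ge d 14 with h5 | h5
  · have hN2 : N 2 = 7 := by decide
    have hN16 : N 16 = 392 := by decide
    have hlt : N (2 + d) + y < N (2 + d + 1) := by
      rw [N_succ]; omega
    have hle : N (2 + d + 1) ≤ N 16 := N_mono (by omega)
    exact allok_spec 2 368 17 chk_two x hx (by omega)
  · rw [h]; exact pos_two d y h5 hy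

end Pool.Agent.Helper50.TruncPent
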