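import Mathlib
import Pool.Agent.Helper50.TruncPent.Base

set_option autoImplicit false
set_option maxRecDepth 100000

namespace Pool.Agent.Helper50.TruncPent

lemma chk_one_a : allok 1 2420 80 = true := by decide +kernel

lemma chk_one_b : allok 1 1500 2500 = true := by decide +kernel

lemma chk_one_c : allok 1 1200 4000 = true := by decide +kernel

lemma chk_one_d : allok 1 1100 5200 = true := by decide +kernel

lemma chk_one_e : allok 1 1083 6300 = true := by decide +kernel

/-- `k = 1`, beyond the small range. -/
lemma base_one (x : ℕ) (hx : 80 ≤ x) : 0 < c 1 (N 1 + x) := by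
  obtain ⟨d, y, hy, h⟩ := block_exists 1 x
  rcases Nat.lt_or_ge d 69 with h5 | h5
  · have hN1 : N 1 = 2 := by decide
    have hN70 : N 70 = 7385 := by decide
    have hlt : N (1 + d) + y < N (1 + d + 1) := by
      rw [N_succ]; omega
    have hle : N (1 + d + 1) ≤ N 70 := N_mono (by omega)
    rcases Nat.lt_or_ge x 2500 with h1 | h1
    · exact allok_spec 1 2420 80 chk_one_a x hx (by omega)
    rcases Nat.lt_or_ge x 4000 with h2 | h2
    · exact allok_spec 1 1500 2500 chk_one_b x h1 (by omega)
    rcases Nat.lt_or_ge x 5200 with h3 | h3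
    · exact allok_spec 1 1200 4000 chk_one_c x h2 (by omega)
    rcases Nat.lt_or_ge x 6300 with h4 | h4
    · exact allok_spec 1 1100 5200 chk_one_d x h3 (by omega)
    · exact allok_spec 1 1083 6300 chk_one_e x h4 (by omega)
  · rw [h]; exact pos_one d y h5 hy

end Pool.Agent.Helper50.TruncPent
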