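import Mathlib
import Pool.Agent.Helper50.TruncPent.Series

set_option autoImplicit false

namespace Pool.Agent.Helper50.TruncPent

open PowerSeries Filter Topology
open scoped PowerSeries.WithPiTopology

/-! ### Sign patterns -/

/-- The coefficient of `q^n` vanishes exactly when `Z n`, and is positive otherwise. -/
def Pat (Z : ℕ → Prop) (C : ℤ⟦X⟧) : Prop :=
  ∀ n, (Z n → coeff n C = 0) ∧ (¬ Z n → 0 < coeff n C)

lemma coeff_div {s : ℕ} {G C : ℤ⟦X⟧} (h : G * (1 - X ^ s) = C) (n : ℕ) :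
    coeff n G = coeff n C + if s ≤ n then coeff (n - s) G else 0 := by
  rw [← h, mul_sub, mul_one, map_sub, coeff_mul_X_pow']
  ring

lemma pat_div {Z : ℕ → Prop} {s : ℕ} (hs : 0 < s) (hZ : ∀ n, Z n → s ≤ n → Z (n - s))
    {G C : ℤ⟦X⟧} (h : G * (1 - X ^ s) = C) (hC : Pat Z C) : Pat Z G := by
  intro n
  induction n using Nat.strong_induction_on with
  | _ n ih =>
    have hc := coeff_div h n
    by_cases hsn : s ≤ n
    · rw [if_pos hsn] at hc
      have ihn := ih (n - s) (by omega)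
      constructor
      · intro hz
        rw [hc, (hC n).1 hz, ihn.1 (hZ n hz hsn)]; rfl
      · intro hz
        have h1 := (hC n).2 hz
        by_cases hz' : Z (n - s)
        · rw [hc, ihn.1 hz']; linarith
        · have := ihn.2 hz'
          rw [hc]; linarith
    · rw [if_neg hsn, add_zero] at hc
      rw [hc]
      exact hC n

/-- One block of four factors. -/
noncomputable def blk (i : ℕ) : ℤ⟦X⟧ :=
  (1 - X ^ (2 + 7 * i)) * (1 - X ^ (3 + 7 * i)) * (1 - X ^ (4 + 7 * i)) * (1 - X ^ (5 + 7 * i))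

lemma pat_blocks {Z : ℕ → Prop} {C : ℤ⟦X⟧}
    (hZ : ∀ s, 16 ≤ s → ∀ n, Z n → s ≤ n → Z (n - s))
    (base : ∀ G : ℤ⟦X⟧, G * (blk 0 * blk 1) = C → Pat Z G) :
    ∀ M : ℕ, ∀ G : ℤ⟦X⟧, G * ∏ i ∈ Finset.range (M + 2), blk i = C → Pat Z G := by
  intro M
  induction M with
  | zero =>
    intro G h
    apply base
    rw [← h]
    simp [Finset.prod_range_succ]
  | succ M ih =>
    intro G h
    rw [Finset.prod_range_succ, mul_comm (∏ i ∈ Finset.range (M + 2), blk i), ← mul_assoc] at h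
    have h1 := ih _ h
    unfold blk at h1
    have h2 := pat_div (s := 5 + 7 * (M + 2)) (by omega) (hZ _ (by omega))
      (G := G * (1 - X ^ (2 + 7 * (M + 2))) * (1 - X ^ (3 + 7 * (M + 2))) *
        (1 - X ^ (4 + 7 * (M + 2)))) (by ring) h1
    have h3 := pat_div (s := 4 + 7 * (M + 2)) (by omega) (hZ _ (by omega))
      (G := G * (1 - X ^ (2 + 7 * (M + 2))) * (1 - X ^ (3 + 7 * (M + 2)))) (by ring) h2
    have h4 := pat_div (s := 3 + 7 * (M + 2)) (by omega) (hZ _ (by omega))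
      (G := G * (1 - X ^ (2 + 7 * (M + 2)))) (by ring) h3
    exact pat_div (s := 2 + 7 * (M + 2)) (by omega) (hZ _ (by omega)) (G := G) (by ring) h4

/-! ### Infinite products -/

lemma poch_tendsto (s t : ℕ) (hs : 1 ≤ s) (ht : 1 ≤ t) :
    Tendsto (fun M => ∏ i ∈ Finset.range M, (1 - (X : ℤ⟦X⟧) ^ (s + t * i))) atTop
      (𝓝 (poch s t)) := by
  have hm : Multipliable fun i : ℕ => (1 - (X : ℤ⟦X⟧) ^ (s + t * i)) := by
    simp_rw [sub_eq_add_neg]
    apply PowerSeries.WithPiTopology.multipliable_one_add_of_tendsto_order_atTop_nhds_top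
    refine ENat.tendsto_nhds_top_iff_natCast_lt.mpr (fun n ↦ eventually_atTop.mpr ⟨n, ?_⟩)
    intro m hm
    rw [order_neg, order_X_pow]
    norm_cast
    nlinarith
  exact hm.hasProd.tendsto_prod_nat

lemma ev_dvd {f : ℕ → ℤ⟦X⟧} {A : ℤ⟦X⟧} (h : Tendsto f atTop (𝓝 A)) (n : ℕ) :
    ∀ᶠ M in atTop, X ^ n ∣ A - f M := by
  rw [PowerSeries.WithPiTopology.tendsto_iff_coeff_tendsto] at h
  have h1 : ∀ m ∈ Finset.range n, ∀ᶠ M in atTop, coeff m (f M) = coeff m A := by
    intro m _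
    have := h m
    rw [nhds_discrete, tendsto_pure] at this
    exact this
  rw [← eventually_all_finset] at h1
  filter_upwards [h1] with M hM
  rw [X_pow_dvd_iff]
  intro m hm
  rw [map_sub, hM m (Finset.mem_range.mpr hm), sub_self]

lemma prod_split (M : ℕ) :
    (∏ i ∈ Finset.range M, (1 - (X : ℤ⟦X⟧) ^ (1 + 7 * i))) *
      (∏ i ∈ Finset.range M, (1 - (X : ℤ⟦X⟧) ^ (6 + 7 * i))) *
      (∏ i ∈ Finset.range M, (1 - (X : ℤ⟦X⟧) ^ (7 + 7 * i))) *
      (∏ i ∈ Finset.range M, blk i) =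
    ∏ j ∈ Finset.range (7 * M), (1 - (X : ℤ⟦X⟧) ^ (1 + 1 * j)) := by
  induction M with
  | zero => simp
  | succ M ih =>
    have e : 7 * (M + 1) = 7 * M + 1 + 1 + 1 + 1 + 1 + 1 + 1 := by ring
    rw [e]
    simp only [Finset.prod_range_succ]
    rw [← ih]
    unfold blk
    have e1 : 1 + 1 * (7 * M) = 1 + 7 * M := by ring
    have e2 : 1 + 1 * (7 * M + 1) = 2 + 7 * M := by ring
    have e3 : 1 + 1 * (7 * M + 1 + 1) = 3 + 7 * M := by ring
    have e4 : 1 + 1 * (7 * M + 1 + 1 + 1) = 4 + 7 * M := by ring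
    have e5 : 1 + 1 * (7 * M + 1 + 1 + 1 + 1) = 5 + 7 * M := by ring
    have e6 : 1 + 1 * (7 * M + 1 + 1 + 1 + 1 + 1) = 6 + 7 * M := by ring
    have e7 : 1 + 1 * (7 * M + 1 + 1 + 1 + 1 + 1 + 1) = 7 + 7 * M := by ring
    rw [e1, e2, e3, e4, e5, e6, e7]
    ring

/-- The denominator product `(q^2, q^3, q^4, q^5; q^7)_∞`. -/
noncomputable def B : ℤ⟦X⟧ := poch 2 7 * poch 3 7 * poch 4 7 * poch 5 7

lemma B_tendsto : Tendsto (fun M => ∏ i ∈ Finset.range M, blk i) atTop (𝓝 B) := by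
  unfold B blk
  simp only [Finset.prod_mul_distrib]
  exact (((poch_tendsto 2 7 (by norm_num) (by norm_num)).mul
    (poch_tendsto 3 7 (by norm_num) (by norm_num))).mul
    (poch_tendsto 4 7 (by norm_num) (by norm_num))).mul
    (poch_tendsto 5 7 (by norm_num) (by norm_num))

lemma euler_split : poch 1 1 = poch 1 7 * poch 6 7 * poch 7 7 * B := by
  have h1 := poch_tendsto 1 1 (by norm_num) (by norm_num)
  have h2 : Tendsto (fun M : ℕ => 7 * M) atTop atTop :=
    tendsto_id.const_mul_atTop' (by norm_num)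
  have h3 := h1.comp h2
  have h4 := (((poch_tendsto 1 7 (by norm_num) (by norm_num)).mul
    (poch_tendsto 6 7 (by norm_num) (by norm_num))).mul
    (poch_tendsto 7 7 (by norm_num) (by norm_num))).mul B_tendsto
  have h5 : ((fun M => ∏ i ∈ Finset.range M, (1 - (X : ℤ⟦X⟧) ^ (1 + 1 * i))) ∘
      fun M : ℕ => 7 * M) = fun M => (∏ i ∈ Finset.range M, (1 - (X : ℤ⟦X⟧) ^ (1 + 7 * i))) *
      (∏ i ∈ Finset.range M, (1 - (X : ℤ⟦X⟧) ^ (6 + 7 * i))) *
      (∏ i ∈ Finset.range M, (1 - (X : ℤ⟦X⟧) ^ (7 + 7 * i))) *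
      (∏ i ∈ Finset.range M, blk i) := by
    funext M
    exact (prod_split M).symm
  rw [h5] at h3
  exact tendsto_nhds_unique h3 h4

lemma E_unit : IsUnit E := by
  rw [isUnit_iff_constantCoeff]
  have h : coeff (pentagonal 0) (pentagonalSeries ℤ) = 1 := by
    rw [coeff_pentagonalSeries_pentagonal]; simp
  have h0 : pentagonal 0 = 0 := by decide
  rw [h0, coeff_zero_eq_constantCoeff_apply] at h
  unfold E
  rw [h]
  exact isUnit_one

lemma F_mul_B (k : ℕ) (hk : 1 ≤ k) : F k * B = T k := by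
  have hE := E_unit
  have hs := euler_split
  rw [poch_one_one] at hs
  have hne : (poch 1 7 * poch 6 7 * poch 7 7) ≠ 0 := by
    intro h0
    rw [h0, zero_mul] at hs
    rw [hs] at hE
    exact not_isUnit_zero hE
  have hF : F k * E = T k * (poch 1 7 * poch 6 7 * poch 7 7) := by
    unfold F T
    rw [poch_one_one]
    have hi : Ring.inverse E * E = 1 := Ring.inverse_mul_cancel _ hE
    obtain ⟨j, rfl⟩ := Nat.exists_eq_add_of_le' hk
    rw [Nat.add_sub_cancel, pow_succ]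
    linear_combination ((-1) ^ j * P (j + 1) * (poch 1 7 * poch 6 7 * poch 7 7)) * hi
  apply mul_left_cancel₀ hne
  rw [← mul_comm (T k), ← hF]
  rw [hs]
  ring

lemma blk_unit (M : ℕ) : IsUnit (∏ i ∈ Finset.range M, blk i) := by
  rw [isUnit_iff_constantCoeff, map_prod]
  have : ∀ i ∈ Finset.range M, constantCoeff (blk i) = 1 := by
    intro i _
    unfold blk
    simp
  rw [Finset.prod_congr rfl this]
  simp

lemma pat_F (k : ℕ) (hk : 1 ≤ k) {Z : ℕ → Prop}
    (hZ : ∀ s, 16 ≤ s → ∀ n, Z n → s ≤ n → Z (n - s))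
    (base : ∀ G : ℤ⟦X⟧, G * (blk 0 * blk 1) = T k → Pat Z G) : Pat Z (F k) := by
  intro n
  obtain ⟨M, hM2, hM⟩ := ((eventually_ge_atTop 2).and (ev_dvd B_tendsto (n + 1))).exists
  obtain ⟨M', rfl⟩ := Nat.exists_eq_add_of_le' hM2
  have hu := blk_unit (M' + 2)
  set BM := ∏ i ∈ Finset.range (M' + 2), blk i with hBM
  have hG : (T k * Ring.inverse BM) * BM = T k := by
    rw [mul_assoc, Ring.inverse_mul_cancel _ hu, mul_one]
  have hp := pat_blocks hZ base M' _ hG
  have hFB := F_mul_B k hk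
  have hd : X ^ (n + 1) ∣ F k - T k * Ring.inverse BM := by
    have h1 : (F k - T k * Ring.inverse BM) * BM = - F k * (B - BM) := by
      rw [sub_mul, hG, ← hFB]; ring
    have h2 : X ^ (n + 1) ∣ (F k - T k * Ring.inverse BM) * BM := by
      rw [h1]; exact Dvd.dvd.mul_left hM _
    exact (hu.dvd_mul_right).mp h2
  rw [X_pow_dvd_iff] at hd
  have hn := hd n (Nat.lt_succ_self n)
  rw [map_sub, sub_eq_zero] at hn
  rw [hn]
  exact hp n

end Pool.Agent.Helper50.TruncPent
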