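import Mathlib
import Pool.Agent.Helper50.TruncPent.Base
import Pool.Agent.Helper50.TruncPent.CheckOne
import Pool.Agent.Helper50.TruncPent.Product

set_option autoImplicit false
set_option maxRecDepth 100000

namespace Pool.Agent.Helper50.TruncPent

open PowerSeries

/-- Direct evaluation of `c j (N j + x)`. -/
def cI : ℕ → ℕ → ℕ → ℤ
  | 0, _, _ => 0
  | f + 1, j, x => (Qc x : ℤ) - (if 2 * j + 1 ≤ x then (Qc (x - (2 * j + 1)) : ℤ) else 0) -
      (if 3 * j + 2 ≤ x then cI f (j + 1) (x - (3 * j + 2)) else 0)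

lemma cI_spec : ∀ f j x : ℕ, x < f → c j (N j + x) = cI f j x := by
  intro f
  induction f with
  | zero => intro j x h; omega
  | succ f ih =>
    intro j x h
    rw [c_rec', cI]
    simp only [Qc_eq]
    by_cases h3 : 3 * j + 2 ≤ x
    · rw [if_pos h3, if_pos h3, ih _ _ (by omega)]
    · rw [if_neg h3, if_neg h3]

/-- Table of coefficients. -/
def L0 : List ℤ := [
  0, 0, 1, 0, 1, 0, 1, 0, 1, 0, 0, 0, 1, -1, 1, 0, 0, 1, 1, 0, 2, 1, 1, 2, 2, 1, 2, 2, 1, 2, 2,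
  0, 2, 1, 0, 2, 0, 0, 1, 0, 1, 0, 1, 0, 1, 2, 0, 2, 2, 1, 4, 1, 3, 3, 3, 4, 3, 3, 4, 3, 5, 2, 4,
  3, 3, 4, 2, 2, 3, 1, 4, 0, 2, 1, 1, 2, 0, 1, 1, 0, 3, -1, 2, 1, 1, 3, 1, 2, 3, 2, 5, 2, 4, 4,
  4, 6, 4, 5, 6, 5]

/-- Table of coefficients. -/
def L4 : List ℤ := [
  0, 0, 1, 0, 1, 0, 2, 0, 2, 0, 2, 0, 3, -1, 3, 0, 3, 0, 4, 0, 5, 1, 5, 2, 7, 2, 7, 4, 8, 4, 9,
  4, 10, 5, 9, 6, 10, 5, 10, 6, 11, 5, 11, 6, 12, 7, 11, 8, 14, 8, 15, 9, 17, 11, 18, 13, 20, 14,
  22, 16, 25, 16, 26, 19, 28, 20, 28, 21, 31, 21, 32, 21, 33, 22, 33, 23, 33, 23, 34, 23, 36, 22,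
  36, 24, 37, 25, 37, 26, 40, 27, 42, 28, 44, 31, 46, 34, 48, 36, 52, 39]

/-- Table of coefficients. -/
def L9 : List ℤ := [
  0, 0, 1, 0, 1, 0, 2, 0, 2, 0, 2, 1, 3, 0, 3, 2, 3, 2, 4, 2, 6, 4, 5, 5, 9, 5, 9, 8, 10, 10, 13,
  9, 15, 14, 14, 15, 18, 15, 20, 19, 20, 20, 25, 20, 27, 25, 26, 28, 33, 28, 35, 34, 37, 38, 43,
  39, 48, 47, 50, 51, 59, 53, 64, 62, 67, 68, 75, 71, 82, 80, 85, 85, 95, 89, 101, 98, 104, 105,
  114, 108, 121, 117, 125, 125, 135, 129, 142, 140, 148, 148, 159, 153, 169, 166, 175, 176, 188,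
  184, 200, 198]

/-- Table of coefficients. -/
def L10 : List ℤ := [
  0, 0, 1, 0, 1, 0, 2, 0, 2, 0, 2, 1, 4, 0, 4, 2, 5, 2, 6, 2, 8, 5, 9, 5, 13, 7, 14, 10, 16, 12,
  21, 14, 24, 19, 27, 22, 32, 25, 36, 31, 41, 34, 49, 39, 54, 47, 58, 53, 69, 59, 76, 68, 86, 77,
  97, 86, 106, 100, 119, 110, 135, 121, 150, 139, 164, 154, 181, 171, 201, 190, 220, 206, 245,
  228, 265, 252, 285, 276, 315, 298, 341, 323, 370, 353, 400, 381, 427, 416, 463, 446, 500, 476,
  539, 519, 575, 557, 615, 600, 663, 644]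

/-- Table of coefficients. -/
def L11 : List ℤ := [
  0, 0, 1, 0, 1, 0, 2, 0, 2, 0, 2, 1, 4, 1, 4, 3, 5, 4, 6, 4, 8, 7, 10, 9, 14, 11, 17, 15, 20,
  18, 25, 22, 31, 29, 36, 36, 43, 42, 51, 51, 59, 59, 71, 70, 83, 83, 94, 96, 111, 110, 127, 127,
  145, 148, 167, 169, 189, 194, 215, 221, 245, 248, 277, 284, 312, 321, 350, 360, 395, 405, 441,
  451, 493, 505, 549, 564, 606, 626, 675, 693, 746, 764, 821, 846, 905, 930, 991, 1022, 1089,
  1121, 1193, 1222, 1303, 1340, 1421, 1462, 1545, 1591, 1685, 1733]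

lemma tab_zero : ∀ n : ℕ, n < 98 → cI 98 1 n = L0.getD (n + 2) 0 := by decide +kernel

lemma tab_start (n : ℕ) (hn : n < 100) : c 1 n = L0.getD n 0 := by
  have hN : N 1 = 2 := by decide
  rcases Nat.lt_or_ge n 2 with h | h
  · rw [c_zero (by omega)]
    interval_cases n <;> decide
  · obtain ⟨x, rfl⟩ := Nat.exists_eq_add_of_le h
    have h1 := cI_spec 98 1 x (by omega)
    rw [hN] at h1
    rw [h1, tab_zero x (by omega), Nat.add_comm x 2]

lemma tab_div {s b : ℕ} {G C : ℤ⟦X⟧} {L L' : List ℤ} (hs : 0 < s) (h : G * (1 - X ^ s) = C)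
    (hC : ∀ n, n < b → coeff n C = L.getD n 0)
    (hL : ∀ n, n < b → L'.getD n 0 = L.getD n 0 + if s ≤ n then L'.getD (n - s) 0 else 0) :
    ∀ n, n < b → coeff n G = L'.getD n 0 := by
  intro n
  induction n using Nat.strong_induction_on with
  | _ n ih =>
    intro hn
    rw [coeff_div h n, hC n hn, hL n hn]
    by_cases hsn : s ≤ n
    · rw [if_pos hsn, if_pos hsn, ih (n - s) (by omega) (by omega)]
    · rw [if_neg hsn, if_neg hsn]

lemma pos_div {s b a : ℕ} {G C : ℤ⟦X⟧} (hs : 0 < s) (h : G * (1 - X ^ s) = C)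
    (hC : ∀ n, b ≤ n → 0 < coeff n C) (hG : ∀ n, a ≤ n → n < b → 0 < coeff n G)
    (hb : a + s ≤ b) : ∀ n, a ≤ n → 0 < coeff n G := by
  intro n
  induction n using Nat.strong_induction_on with
  | _ n ih =>
    intro hn
    rcases Nat.lt_or_ge n b with h1 | h1
    · exact hG n hn h1
    · rw [coeff_div h n, if_pos (by omega)]
      have := hC n h1
      have := ih (n - s) (by omega) (by omega)
      linarith

lemma blk_expand (G : ℤ⟦X⟧) : G * (blk 0 * blk 1) =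
    G * (1 - X ^ 12) * (1 - X ^ 11) * (1 - X ^ 10) * (1 - X ^ 9) * (1 - X ^ 4) *
      ((1 - X ^ 2) * (1 - X ^ 3) * (1 - X ^ 5)) := by
  unfold blk
  norm_num
  ring

lemma of_base {k : ℕ} {G : ℤ⟦X⟧} (h : G * (blk 0 * blk 1) = T k) :
    G * (1 - X ^ 12) * (1 - X ^ 11) * (1 - X ^ 10) * (1 - X ^ 9) * (1 - X ^ 4) = T k * QS := by
  rw [blk_expand] at h
  linear_combination QS * h -
    (G * (1 - X ^ 12) * (1 - X ^ 11) * (1 - X ^ 10) * (1 - X ^ 9) * (1 - X ^ 4)) * QS_mul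

/-- The exceptional set for `k ≥ 2`. -/
def Zk (k n : ℕ) : Prop := n < N k ∨ n = N k + 1

/-- The exceptional set for `k = 1`. -/
def Z1 (n : ℕ) : Prop := n = 0 ∨ n = 1 ∨ n = 3 ∨ n = 5 ∨ n = 7 ∨ n = 9

lemma Zk_shift (k s : ℕ) (hs : 2 ≤ s) (n : ℕ) (h : Zk k n) (h2 : s ≤ n) : Zk k (n - s) := by
  unfold Zk at *
  omega

lemma Z1_shift (s : ℕ) (hs : 10 ≤ s) (n : ℕ) (h : Z1 n) (h2 : s ≤ n) : Z1 (n - s) := by
  unfold Z1 at *
  omega

lemma pat_three (k : ℕ) (hk : 3 ≤ k) (G : ℤ⟦X⟧) (h : G * (blk 0 * blk 1) = T k) :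
    Pat (Zk k) G := by
  have h0 := of_base h
  have hC : Pat (Zk k) (T k * QS) := by
    intro n
    constructor
    · rintro (hz | hz)
      · exact c_zero hz
      · rw [hz]; exact c_one_zero k (by omega)
    · intro hz
      unfold Zk at hz
      push Not at hz
      obtain ⟨x, rfl⟩ := Nat.exists_eq_add_of_le hz.1
      exact base_three k x hk (by omega)
  have h4 := pat_div (by norm_num) (Zk_shift k 4 (by norm_num)) h0 hC
  have h9 := pat_div (by norm_num) (Zk_shift k 9 (by norm_num)) rfl h4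
  have h10 := pat_div (by norm_num) (Zk_shift k 10 (by norm_num)) rfl h9
  have h11 := pat_div (by norm_num) (Zk_shift k 11 (by norm_num)) rfl h10
  exact pat_div (by norm_num) (Zk_shift k 12 (by norm_num)) rfl h11

lemma small_two : ∀ x : ℕ, x < 17 → 0 < cI 17 2 x ∨ ((x = 1 ∨ x = 13 ∨ x = 16) ∧ cI 17 2 x = 0) := by
  decide +kernel

lemma c_two (x : ℕ) : 0 < c 2 (N 2 + x) ∨ ((x = 1 ∨ x = 13 ∨ x = 16) ∧ c 2 (N 2 + x) = 0) := by
  rcases Nat.lt_or_ge x 17 with h | h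
  · rw [cI_spec 17 2 x h]
    exact small_two x h
  · exact Or.inl (base_two x h)

lemma pat_two (G : ℤ⟦X⟧) (h : G * (blk 0 * blk 1) = T 2) :
    Pat (Zk 2) G := by
  have h0 := of_base h
  have hN : N 2 = 7 := by decide
  have h4 : Pat (Zk 2) (G * (1 - X ^ 12) * (1 - X ^ 11) * (1 - X ^ 10) * (1 - X ^ 9)) := by
    set D := G * (1 - X ^ 12) * (1 - X ^ 11) * (1 - X ^ 10) * (1 - X ^ 9) with hD
    intro n
    induction n using Nat.strong_induction_on with
    | _ n ih =>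
      have hc := coeff_div h0 n
      have hcn : coeff n (T 2 * QS) = c 2 n := rfl
      rw [hcn] at hc
      constructor
      · intro hz
        have hz2 : c 2 n = 0 := by
          rcases hz with hz | hz
          · exact c_zero hz
          · rw [hz]; exact c_one_zero 2 (by omega)
        rw [hc, hz2]
        by_cases hn : 4 ≤ n
        · rw [if_pos hn, (ih (n - 4) (by omega)).1 (Zk_shift 2 4 (by norm_num) n hz hn)]
          rfl
        · rw [if_neg hn]; rfl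
      · intro hz
        have hz' := hz
        unfold Zk at hz
        push Not at hz
        obtain ⟨x, rfl⟩ := Nat.exists_eq_add_of_le hz.1
        rw [hc, if_pos (by omega)]
        have ihn := ih (N 2 + x - 4) (by omega)
        have hnn : 0 ≤ coeff (N 2 + x - 4) D := by
          by_cases hzz : Zk 2 (N 2 + x - 4)
          · rw [ihn.1 hzz]
          · exact (ihn.2 hzz).le
        rcases c_two x with hp | ⟨hx, hp⟩
        · linarith
        · have hx1 : x ≠ 1 := by omega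
          have hnz : ¬ Zk 2 (N 2 + x - 4) := by
            unfold Zk; omega
          have := ihn.2 hnz
          linarith
  have h9 := pat_div (by norm_num) (Zk_shift 2 9 (by norm_num)) rfl h4
  have h10 := pat_div (by norm_num) (Zk_shift 2 10 (by norm_num)) rfl h9
  have h11 := pat_div (by norm_num) (Zk_shift 2 11 (by norm_num)) rfl h10
  exact pat_div (by norm_num) (Zk_shift 2 12 (by norm_num)) rfl h11

lemma t4 : ∀ n, n < 100 → L4.getD n 0 = L0.getD n 0 + if 4 ≤ n then L4.getD (n - 4) 0 else 0 := by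
  decide +kernel

lemma t9 : ∀ n, n < 100 → L9.getD n 0 = L4.getD n 0 + if 9 ≤ n then L9.getD (n - 9) 0 else 0 := by
  decide +kernel

lemma t10 : ∀ n, n < 100 →
    L10.getD n 0 = L9.getD n 0 + if 10 ≤ n then L10.getD (n - 10) 0 else 0 := by
  decide +kernel

lemma t11 : ∀ n, n < 100 →
    L11.getD n 0 = L10.getD n 0 + if 11 ≤ n then L11.getD (n - 11) 0 else 0 := by
  decide +kernel

lemma s4 : ∀ n, n < 100 → 20 ≤ n → 0 < L4.getD n 0 := by decide +kernel

lemma s9 : ∀ n, n < 100 → 20 ≤ n → 0 < L9.getD n 0 := by decide +kernel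

lemma s10 : ∀ n, n < 100 → 20 ≤ n → 0 < L10.getD n 0 := by decide +kernel

lemma s11 : ∀ n, n < 100 → 20 ≤ n → 0 < L11.getD n 0 := by decide +kernel

lemma s11' : ∀ n, n < 20 →
    ((n = 0 ∨ n = 1 ∨ n = 3 ∨ n = 5 ∨ n = 7 ∨ n = 9) → L11.getD n 0 = 0) ∧
    (¬ (n = 0 ∨ n = 1 ∨ n = 3 ∨ n = 5 ∨ n = 7 ∨ n = 9) → 0 < L11.getD n 0) := by
  decide +kernel

lemma pat_one (G : ℤ⟦X⟧) (h : G * (blk 0 * blk 1) = T 1) : Pat Z1 G := by
  have h0 := of_base h
  have hN : N 1 = 2 := by decide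
  have e0 : ∀ n, n < 100 → coeff n (T 1 * QS) = L0.getD n 0 := fun n hn => tab_start n hn
  have p0 : ∀ n, 100 ≤ n → 0 < coeff n (T 1 * QS) := by
    intro n hn
    obtain ⟨x, rfl⟩ := Nat.exists_eq_add_of_le (show N 1 ≤ n by omega)
    exact base_one x (by omega)
  have e4 := tab_div (by norm_num) h0 e0 t4
  have p4 := pos_div (a := 20) (by norm_num) h0 p0
    (fun n h1 h2 => by rw [e4 n h2]; exact s4 n h2 h1) (by norm_num)
  have e9 := tab_div (s := 9) (by norm_num) rfl e4 t9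
  have p9 := pos_div (s := 9) (a := 20) (b := 100) (by norm_num) rfl
    (fun n h1 => p4 n (by omega)) (fun n h1 h2 => by rw [e9 n h2]; exact s9 n h2 h1) (by norm_num)
  have e10 := tab_div (s := 10) (by norm_num) rfl e9 t10
  have p10 := pos_div (s := 10) (a := 20) (b := 100) (by norm_num) rfl
    (fun n h1 => p9 n (by omega)) (fun n h1 h2 => by rw [e10 n h2]; exact s10 n h2 h1)
    (by norm_num)
  have e11 := tab_div (s := 11) (by norm_num) rfl e10 t11
  have p11 := pos_div (s := 11) (a := 20) (b := 100) (by norm_num) rfl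
    (fun n h1 => p10 n (by omega)) (fun n h1 h2 => by rw [e11 n h2]; exact s11 n h2 h1)
    (by norm_num)
  have hp : Pat Z1 (G * (1 - X ^ 12)) := by
    intro n
    rcases Nat.lt_or_ge n 20 with hn | hn
    · rw [e11 n (by omega)]
      exact s11' n hn
    · refine ⟨fun hz => ?_, fun _ => p11 n hn⟩
      unfold Z1 at hz
      omega
  exact pat_div (by norm_num) (Z1_shift 12 (by norm_num)) rfl hp

/-- Sign pattern of `F_k` for `k ≥ 2`. -/
theorem main_two (k : ℕ) (hk : 2 ≤ k) : Pat (Zk k) (F k) := by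
  apply pat_F k (by omega) (fun s hs => Zk_shift k s (by omega))
  intro G h
  rcases Nat.eq_or_lt_of_le hk with rfl | hk
  · exact pat_two G h
  · exact pat_three k hk G h

/-- Sign pattern of `F_1`. -/
theorem main_one : Pat Z1 (F 1) :=
  pat_F 1 le_rfl (fun s hs => Z1_shift s (by omega)) pat_one

end Pool.Agent.Helper50.TruncPent
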